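import Mathlib
import Pool.Agent.H3.SepHadwiger

set_option autoImplicit false

namespace Pool.Agent.Results.MP_75a0ab_co.DenseDimensionFive

open Pool.Agent.H3.SepHadwiger

/-- In dimension five the origin-symmetric convex bodies whose separable Hadwiger number has the
minimal possible value `2 * 5` are dense. -/
theorem result : Dense {K : SymBody 5 | Hsep (K.1 : Set (E 5)) = 2 * 5} := by
  rw [Metric.dense_iff]
  intro K ε hε
  refine ⟨thick K (ε / 2) (by positivity), ?_, ?_⟩
  · rw [Metric.mem_ball]
    exact (dist_thick K (ε / 2) (by positivity)).trans_lt (by linarith)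
  · exact Hsep_five _ (Or.inl (isSmooth_thick K _ _))

end Pool.Agent.Results.MP_75a0ab_co.DenseDimensionFive
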