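import Mathlib
import Pool.Agent.H3.SepHadwiger

set_option autoImplicit false

namespace Pool.Agent.Results.MP_75a0ab_co.SmoothBodiesBound

open Pool.Agent.H3.SepHadwiger

/-- For `d < 8` the separable Hadwiger number of a smooth or strictly convex origin-symmetric
convex body of dimension `d` lies between `2 d` and `32 / (8 - d)`. -/
theorem result (d : ℕ) (hd : d < 8) (K : SymBody d)
    (hK : IsSmooth (K.1 : Set (E d)) ∨ StrictConvex ℝ (K.1 : Set (E d))) :
    ((2 * d : ℕ) : ℕ∞) ≤ Hsep (K.1 : Set (E d)) ∧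
      Hsep (K.1 : Set (E d)) ≤ ((32 / (8 - d) : ℕ) : ℕ∞) :=
  ⟨le_Hsep K, Hsep_le hd K hK⟩

end Pool.Agent.Results.MP_75a0ab_co.SmoothBodiesBound
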